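import Mathlib

/-!
# The greedy minor argument: elimination of an unknown invertible matrix

If `q i ≠ 0` are vectors over a small field `k`, `v i` vectors over a big field `K` and
`q i ⬝ X v i = 0` for one invertible matrix `X` over `K` and more than `m²` indices `i`, then the
products `∏ i, v i (β i)` satisfy a nontrivial linear relation over `k`.
-/

open scoped BigOperators

namespace Pool.Agent.Helper51_MT

variable {k K ι : Type*} [Field k] [Field K] [Algebra k K] [Fintype ι] [DecidableEq ι]

/-- the row `q ⊗ v` -/
def row (q : ι → k) (v : ι → K) : ι × ι → K := fun p => algebraMap k K (q p.1) * v p.2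

/-- minors detect linear dependence -/
theorem not_li_of_minors {n : ℕ} {κ : Type*} [Fintype κ] [DecidableEq κ] (R : Fin n → κ → K)
    (h : ∀ j : Fin n → κ, Matrix.det (Matrix.of fun i a => R i (j a)) = 0) :
    ¬ LinearIndependent K R := by
  intro hR
  -- dual functionals
  obtain ⟨φ, hφ⟩ : ∃ φ : Fin n → κ → K, ∀ i a, ∑ c, R i c * φ a c = if i = a then 1 else 0 := by
    have h1 : ∀ a : Fin n, ∃ f : (κ → K) →ₗ[K] K, ∀ i, f (R i) = if i = a then 1 else 0 := by
      intro a
      obtain ⟨f, hf⟩ := LinearMap.exists_extend
        ((Finsupp.lapply a : (Fin n →₀ K) →ₗ[K] K).comp hR.repr)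
      refine ⟨f, fun i => ?_⟩
      have h2 := LinearMap.congr_fun hf ⟨R i, Submodule.subset_span ⟨i, rfl⟩⟩
      rw [LinearMap.comp_apply, Submodule.subtype_apply] at h2
      rw [h2, LinearMap.comp_apply, hR.repr_eq_single i _ rfl]
      simp [Finsupp.single_apply]
    choose f hf using h1
    refine ⟨fun a c => f a (Pi.single c 1), fun i a => ?_⟩
    rw [← hf a i]
    conv_rhs => rw [← Finset.univ_sum_single (R i), map_sum]
    refine Finset.sum_congr rfl fun c _ => ?_
    have : (Pi.single c (R i c) : κ → K) = R i c • Pi.single c 1 := by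
      rw [← Pi.single_smul, smul_eq_mul, mul_one]
    rw [this, map_smul, smul_eq_mul]
  have h1 : Matrix.det (Matrix.of fun a i => ∑ c, φ a c • R i c : Matrix (Fin n) (Fin n) K) = 1 := by
    have : (Matrix.of fun a i => ∑ c, φ a c • R i c : Matrix (Fin n) (Fin n) K) = 1 := by
      ext a i
      rw [Matrix.of_apply, Matrix.one_apply]
      simp only [smul_eq_mul, mul_comm]
      rw [hφ]
      simp only [eq_comm]
    rw [this, Matrix.det_one]
  have h2 : Matrix.det (Matrix.of fun a i => ∑ c, φ a c • R i c : Matrix (Fin n) (Fin n) K) = 0 := by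
    have h3 : (Matrix.of fun a i => ∑ c, φ a c • R i c : Matrix (Fin n) (Fin n) K) =
        fun a => ∑ c, φ a c • fun i => R i c := by
      funext a i
      simp [Finset.sum_apply]
    rw [h3]
    change Matrix.detRowAlternating (fun a => ∑ c, φ a c • fun i => R i c) = 0
    rw [← AlternatingMap.coe_multilinearMap, MultilinearMap.map_sum]
    refine Finset.sum_eq_zero fun j _ => ?_
    rw [MultilinearMap.map_smul_univ]
    have h4 := h j
    rw [← Matrix.det_transpose] at h4
    have h5 : (Matrix.detRowAlternating : (Fin n → K) [⋀^Fin n]→ₗ[K] K).toMultilinearMap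
        (fun a i => R i (j a)) = 0 := h4
    rw [h5, smul_zero]
  rw [h2] at h1
  exact zero_ne_one h1

/-- expansion of a determinant of rows `q ⊗ v` -/
theorem det_expand {n : ℕ} (q : Fin n → ι → k) (v : Fin n → ι → K) (j : Fin n → ι × ι) :
    Matrix.det (Matrix.of fun i a => row (q i) (v i) (j a)) =
      ∑ β : Fin n → ι, algebraMap k K (Matrix.det (Matrix.of fun i a =>
        q i (j a).1 * (if (j a).2 = β i then 1 else 0))) * ∏ i, v i (β i) := by
  have h3 : (Matrix.of fun i a => row (q i) (v i) (j a) : Matrix (Fin n) (Fin n) K) =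
      fun i => ∑ b, v i b • fun a => algebraMap k K (q i (j a).1 * (if (j a).2 = b then 1 else 0)) := by
    funext i a
    simp only [Matrix.of_apply, row, Finset.sum_apply, Pi.smul_apply, smul_eq_mul, map_mul]
    rw [Finset.sum_eq_single (j a).2]
    · rw [if_pos rfl, map_one]; ring
    · intro b _ hb
      rw [if_neg (Ne.symm hb), map_zero]; ring
    · intro hb; exact absurd (Finset.mem_univ _) hb
  rw [h3]
  change Matrix.detRowAlternating (fun i => ∑ b, v i b • fun a => algebraMap k K
    (q i (j a).1 * (if (j a).2 = b then 1 else 0))) = _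
  rw [← AlternatingMap.coe_multilinearMap, MultilinearMap.map_sum]
  refine Finset.sum_congr rfl fun β _ => ?_
  rw [MultilinearMap.map_smul_univ, smul_eq_mul, mul_comm]
  congr 1
  rw [RingHom.map_det]
  rfl

/-- extension of a relation to more indices -/
theorem extend_relation {n J : ℕ} (hn : n ≤ J) (v : Fin J → ι → K) (b : ι) (c : (Fin n → ι) → k)
    (hc : c ≠ 0)
    (h : ∑ β, algebraMap k K (c β) * ∏ i, v (Fin.castLE hn i) (β i) = 0) :
    ∃ c' : (Fin J → ι) → k, c' ≠ 0 ∧ ∑ β, algebraMap k K (c' β) * ∏ i, v i (β i) = 0 := by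
  induction J, hn using Nat.le_induction with
  | base =>
    refine ⟨c, hc, ?_⟩
    simpa using h
  | succ J hJ ih =>
    obtain ⟨c₁, hc₁, h₁⟩ := ih (fun i => v i.castSucc) (by simpa using h)
    refine ⟨fun β => if β (Fin.last J) = b then c₁ (fun i => β i.castSucc) else 0, ?_, ?_⟩
    · intro h0
      apply hc₁
      funext β
      have := congrFun h0 (Fin.snoc (α := fun _ => ι) β b)
      simpa using this
    · rw [← (Fin.snocEquiv (fun _ => ι)).sum_comp, Fintype.sum_prod_type]
      refine Finset.sum_eq_zero fun x _ => ?_
      by_cases hx : x = b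
      · subst hx
        simp only [Fin.snocEquiv_apply, Fin.snoc_last, if_true, Fin.snoc_castSucc,
          Fin.prod_univ_castSucc, ← mul_assoc]
        rw [← Finset.sum_mul, h₁, zero_mul]
      · refine Finset.sum_eq_zero fun β _ => ?_
        simp only [Fin.snocEquiv_apply, Fin.snoc_last, if_neg hx, map_zero, zero_mul]

/-- **Elimination of an unknown invertible matrix.** -/
theorem greedy {J : ℕ} (hJ : Fintype.card ι ^ 2 < J) (q : Fin J → ι → k) (hq : ∀ i, q i ≠ 0)
    (v : Fin J → ι → K) (X : Matrix ι ι K) (hX : IsUnit X.det)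
    (h : ∀ i, ∑ α, ∑ b, algebraMap k K (q i α) * X α b * v i b = 0) :
    ∃ c : (Fin J → ι) → k, c ≠ 0 ∧ ∑ β, algebraMap k K (c β) * ∏ i, v i (β i) = 0 := by
  classical
  -- the first dependent row
  have hdep : ∃ n, ∃ hn : n ≤ J, ¬ LinearIndependent K
      (fun i : Fin n => row (q (Fin.castLE hn i)) (v (Fin.castLE hn i))) := by
    refine ⟨J, le_rfl, fun hli => ?_⟩
    have h1 := hli.fintype_card_le_finrank
    rw [Module.finrank_fintype_fun_eq_card, Fintype.card_prod, Fintype.card_fin, ← sq] at h1
    omega
  obtain ⟨hn, hdn⟩ := Nat.find_spec hdep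
  obtain ⟨n, hn'⟩ : ∃ n, Nat.find hdep = n := ⟨_, rfl⟩
  have hmin : ∀ n' < n, ∀ hn : n' ≤ J, LinearIndependent K
      (fun i : Fin n' => row (q (Fin.castLE hn i)) (v (Fin.castLE hn i))) := by
    intro n' hlt hle
    by_contra hcon
    exact Nat.find_min hdep (hn' ▸ hlt) ⟨hle, hcon⟩
  have hn2 : n ≤ J := hn' ▸ hn
  have hdn2 : ¬ LinearIndependent K
      (fun i : Fin n => row (q (Fin.castLE hn2 i)) (v (Fin.castLE hn2 i))) := by
    subst hn'
    exact hdn
  clear hdn hn hn' 
  cases n with
  | zero => exact absurd linearIndependent_empty_type hdn2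
  | succ n =>
    have hlast : q (Fin.castLE hn2 (Fin.last n)) ≠ 0 := hq _
    obtain ⟨b₀, hb₀⟩ : ∃ b, q (Fin.castLE hn2 (Fin.last n)) b ≠ 0 := by
      by_contra hcon
      push Not at hcon
      exact hlast (funext hcon)
    set q' : Fin (n + 1) → ι → k := fun i => q (Fin.castLE hn2 i) with hq'
    set v' : Fin (n + 1) → ι → K := fun i => v (Fin.castLE hn2 i) with hv'
    by_cases hc : ∃ (j : Fin (n + 1) → ι × ι) (β : Fin (n + 1) → ι), Matrix.det (Matrix.of fun i a =>
        q' i (j a).1 * (if (j a).2 = β i then (1 : k) else 0)) ≠ 0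
    · obtain ⟨j, β₀, hj⟩ := hc
      apply extend_relation hn2 v b₀ (fun β => Matrix.det (Matrix.of fun i a =>
        q' i (j a).1 * (if (j a).2 = β i then (1 : k) else 0)))
      · intro h0
        exact hj (congrFun h0 β₀)
      · rw [← det_expand q' v' j]
        -- dependent rows
        by_contra hdet
        apply hdn2
        have h1 : LinearIndependent K (fun i : Fin (n + 1) => fun a : Fin (n + 1) =>
            row (q' i) (v' i) (j a)) := by
          have := Matrix.linearIndependent_rows_of_det_ne_zero hdet
          exact this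
        exact LinearIndependent.of_comp (LinearMap.funLeft K K j) h1
    · exfalso
      push Not at hc
      have hli : LinearIndependent K (fun i : Fin n => row (q' i.castSucc) (v' i.castSucc)) :=
        hmin n (Nat.lt_succ_self n) (by omega)
      -- every `q_n ⊗ e_b` is in the span
      have hspan : ∀ b : ι, row (q' (Fin.last n)) (Pi.single b (1 : K)) ∈ Submodule.span K
          (Set.range (fun i : Fin n => row (q' i.castSucc) (v' i.castSucc))) := by
        intro b
        by_contra hb
        have h2 : LinearIndependent K (Fin.snoc (α := fun _ => ι × ι → K)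
            (fun i : Fin n => row (q' i.castSucc) (v' i.castSucc))
            (row (q' (Fin.last n)) (Pi.single b (1 : K)))) :=
          linearIndependent_finSnoc.2 ⟨hli, hb⟩
        have h3 : (Fin.snoc (α := fun _ => ι × ι → K)
            (fun i : Fin n => row (q' i.castSucc) (v' i.castSucc))
            (row (q' (Fin.last n)) (Pi.single b (1 : K)))) =
            fun i => row (q' i) ((Fin.snoc (α := fun _ => ι → K) (fun i : Fin n => v' i.castSucc)
              (Pi.single b (1 : K)) : Fin (n + 1) → ι → K) i) := by
          funext i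
          refine Fin.lastCases ?_ (fun i => ?_) i
          · simp only [Fin.snoc_last]
          · simp only [Fin.snoc_castSucc]
        rw [h3] at h2
        refine not_li_of_minors _ (fun j => ?_) h2
        rw [det_expand]
        refine Finset.sum_eq_zero fun β _ => ?_
        rw [hc j β, map_zero, zero_mul]
      -- the functional `X`
      let Λ : (ι × ι → K) →ₗ[K] K :=
        ∑ p : ι × ι, X p.1 p.2 • (LinearMap.proj p : (ι × ι → K) →ₗ[K] K)
      have hΛ : ∀ w, Λ w = ∑ α, ∑ b, X α b * w (α, b) := by
        intro w
        simp only [Λ, LinearMap.sum_apply, LinearMap.smul_apply, LinearMap.proj_apply, smul_eq_mul]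
        rw [Fintype.sum_prod_type]
      have h4 : ∀ w ∈ Submodule.span K
          (Set.range (fun i : Fin n => row (q' i.castSucc) (v' i.castSucc))), Λ w = 0 := by
        intro w hw
        induction hw using Submodule.span_induction with
        | mem x hx =>
          obtain ⟨i, rfl⟩ := hx
          rw [hΛ, ← h (Fin.castLE hn2 i.castSucc)]
          refine Finset.sum_congr rfl fun α _ => Finset.sum_congr rfl fun b _ => ?_
          simp only [row, hq', hv']
          ring
        | zero => rw [map_zero]
        | add x y _ _ hx hy => rw [map_add, hx, hy, add_zero]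
        | smul c x _ hx => rw [map_smul, hx, smul_zero]
      have h5 : ∀ b, ∑ α, algebraMap k K (q' (Fin.last n) α) * X α b = 0 := by
        intro b
        have h6 := h4 _ (hspan b)
        rw [hΛ] at h6
        rw [← h6]
        refine Finset.sum_congr rfl fun α _ => ?_
        rw [Finset.sum_eq_single b]
        · simp only [row, Pi.single_eq_same, mul_one]
          ring
        · intro b' _ hb'
          simp only [row, Pi.single_eq_of_ne hb', mul_zero]
        · intro hb'; exact absurd (Finset.mem_univ _) hb'
      have h7 : Matrix.vecMul (fun α => algebraMap k K (q' (Fin.last n) α)) X = 0 := by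
        funext b
        exact h5 b
      have h8 : (fun α => algebraMap k K (q' (Fin.last n) α)) = 0 := by
        have h9 : X * X⁻¹ = 1 := Matrix.mul_nonsing_inv X hX
        have h10 := congrArg (fun w => Matrix.vecMul w X⁻¹) h7
        simp only [Matrix.vecMul_vecMul, h9, Matrix.vecMul_one, Matrix.zero_vecMul] at h10
        exact h10
      have h11 := congrFun h8 b₀
      have h12 : q' (Fin.last n) b₀ = 0 := by
        apply (algebraMap k K).injective
        rw [map_zero]
        exact h11
      exact hb₀ h12

end Pool.Agent.Helper51_MT
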