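import Mathlib

/-!
# MT100, module SIE: the auxiliary linear form

Siegel's lemma for linear forms in G-functions.
-/

open scoped BigOperators
open Polynomial PowerSeries

noncomputable section

namespace Pool.Agent.Helper51_MT

/-- A finite family of G-type power series with common constant `C`: geometric size and geometric
common denominators. -/
structure GT (C : ℝ) {κ : Type*} (h : κ → PowerSeries ℚ) : Prop where
  one_le : 1 ≤ C
  bound : ∀ x k, |((PowerSeries.coeff k (h x) : ℚ) : ℝ)| ≤ C ^ (k + 1)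
  den : ∀ k : ℕ, ∃ D : ℕ, 0 < D ∧ (D : ℝ) ≤ C ^ (k + 1) ∧
    ∀ x, ∀ j ≤ k, ∃ z : ℤ, (D : ℚ) * PowerSeries.coeff j (h x) = z

/-- the linear form `∑ P_x h_x` -/
def lform {κ : Type*} [Fintype κ] (P : κ → ℤ[X]) (h : κ → PowerSeries ℚ) : PowerSeries ℚ :=
  ∑ x, (((P x).map (Int.castRingHom ℚ) : ℚ[X]) : PowerSeries ℚ) * h x

theorem coeff_lform {κ : Type*} [Fintype κ] (P : κ → ℤ[X]) (h : κ → PowerSeries ℚ) (i : ℕ) :
    PowerSeries.coeff i (lform P h) =
      ∑ x, ∑ a ∈ Finset.range (i + 1), ((P x).coeff a : ℚ) * PowerSeries.coeff (i - a) (h x) := by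
  rw [lform, map_sum]
  refine Finset.sum_congr rfl fun x _ => ?_
  rw [PowerSeries.coeff_mul, Finset.Nat.sum_antidiagonal_eq_sum_range_succ_mk]
  refine Finset.sum_congr rfl fun a _ => ?_
  rw [Polynomial.coeff_coe, Polynomial.coeff_map]
  rfl

section norm

attribute [local instance] Matrix.seminormedAddCommGroup

/-- Siegel's lemma with an explicit bound -/
theorem siegel {α β : Type*} [Fintype α] [Fintype β] (A : Matrix α β ℤ)
    (hn : Fintype.card α < Fintype.card β) (hm : 0 < Fintype.card α) {E : ℕ} {B : ℝ}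
    (hE : Fintype.card α ≤ E * (Fintype.card β - Fintype.card α))
    (hB : 1 ≤ B) (hA : ∀ i j, |((A i j : ℤ) : ℝ)| ≤ B) :
    ∃ t : β → ℤ, t ≠ 0 ∧ A.mulVec t = 0 ∧ ∀ j, |((t j : ℤ) : ℝ)| ≤ (Fintype.card β * B) ^ E := by
  obtain ⟨t, ht, hAt, hnorm⟩ := Int.Matrix.exists_ne_zero_int_vec_norm_le A hn hm
  refine ⟨t, ht, hAt, fun j => ?_⟩
  have h1 : |((t j : ℤ) : ℝ)| ≤ ‖t‖ := by
    have := norm_le_pi_norm t j
    rwa [Int.norm_eq_abs] at this
  have h2 : ‖A‖ ≤ B := by
    rw [Matrix.norm_le_iff (by linarith)]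
    intro i j
    rw [Int.norm_eq_abs]
    exact hA i j
  have h3 : (1 : ℝ) ≤ Fintype.card β := by exact_mod_cast (hm.trans hn)
  have h4 : (1 : ℝ) ≤ Fintype.card β * max 1 ‖A‖ := one_le_mul_of_one_le_of_one_le h3 (le_max_left _ _)
  have h5 : (Fintype.card β : ℝ) * max 1 ‖A‖ ≤ Fintype.card β * B := by
    refine mul_le_mul_of_nonneg_left (max_le hB h2) (by linarith)
  have h6 : ((Fintype.card α : ℝ) / ((Fintype.card β : ℝ) - Fintype.card α)) ≤ (E : ℝ) := by
    have h7 : (0 : ℝ) < (Fintype.card β : ℝ) - Fintype.card α := by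
      have : (Fintype.card α : ℝ) < Fintype.card β := by exact_mod_cast hn
      linarith
    rw [div_le_iff₀ h7]
    have h8 : (Fintype.card α : ℝ) ≤ ((E * (Fintype.card β - Fintype.card α) : ℕ) : ℝ) := by
      exact_mod_cast hE
    rw [Nat.cast_mul, Nat.cast_sub hn.le] at h8
    exact h8
  calc |((t j : ℤ) : ℝ)| ≤ ‖t‖ := h1
    _ ≤ _ := hnorm
    _ ≤ ((Fintype.card β : ℝ) * max 1 ‖A‖) ^ (E : ℝ) :=
        Real.rpow_le_rpow_of_exponent_le h4 h6
    _ = ((Fintype.card β : ℝ) * max 1 ‖A‖) ^ E := Real.rpow_natCast _ _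
    _ ≤ _ := pow_le_pow_left₀ (by linarith) h5 _

end norm

/-- SIE: the auxiliary linear form. -/
theorem sie {κ : Type*} [Fintype κ] [Nonempty κ] {h : κ → PowerSeries ℚ} {C₀ : ℝ} (hG : GT C₀ h)
    {M : ℕ} (hM : 1 ≤ M) :
    ∃ C : ℝ, 1 ≤ C ∧ ∀ L : ℕ, 1 ≤ L → ∃ P : κ → ℤ[X], P ≠ 0 ∧
      (∀ x, (P x).natDegree ≤ M * L) ∧ (∀ x j, |(((P x).coeff j : ℤ) : ℝ)| ≤ C ^ L) ∧
      ∀ i < (Fintype.card κ * M - 1) * L, PowerSeries.coeff i (lform P h) = 0 := by
  classical
  set μ := Fintype.card κ with hμ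
  have hμ1 : 1 ≤ μ := Fintype.card_pos
  have hC₀ := hG.one_le
  set B₁ : ℝ := 2 * μ * (M + 1) * C₀ ^ (2 * μ * M) with hB₁
  have hμ1' : (1 : ℝ) ≤ μ := by exact_mod_cast hμ1
  have hM' : (1 : ℝ) ≤ M := by exact_mod_cast hM
  have hp : 1 ≤ C₀ ^ (2 * μ * M) := one_le_pow₀ hC₀
  have hB₁1 : 1 ≤ B₁ := by
    have h1 : (1 : ℝ) ≤ 2 * μ * (M + 1) := by nlinarith
    calc (1 : ℝ) = 1 * 1 := by ring
      _ ≤ _ := mul_le_mul h1 hp zero_le_one (by linarith)
  refine ⟨B₁ ^ (μ * M), one_le_pow₀ hB₁1, fun L hL => ?_⟩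
  set T := (μ * M - 1) * L with hT
  by_cases hT0 : T = 0
  · refine ⟨fun _ => 1, ?_, ?_, ?_, ?_⟩
    · intro h0
      have := congrFun h0 (Classical.arbitrary κ)
      exact one_ne_zero this
    · intro x
      simp
    · intro x j
      have h1 : (1 : ℝ) ≤ (B₁ ^ (μ * M)) ^ L := one_le_pow₀ (one_le_pow₀ hB₁1)
      refine le_trans ?_ h1
      rw [Polynomial.coeff_one]
      split_ifs <;> simp
    · intro i hi
      omega
  · obtain ⟨D, hD0, hDb, hDz⟩ := hG.den T
    have hz : ∃ z : κ → ℕ → ℤ, ∀ x, ∀ j ≤ T, (D : ℚ) * PowerSeries.coeff j (h x) = z x j := by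
      refine ⟨fun x j => if hj : j ≤ T then (hDz x j hj).choose else 0, fun x j hj => ?_⟩
      have h1 : (fun x j => if hj : j ≤ T then (hDz x j hj).choose else 0 : κ → ℕ → ℤ) x j =
          (hDz x j hj).choose := dif_pos hj
      rw [h1]
      exact (hDz x j hj).choose_spec
    obtain ⟨z, hz⟩ := hz
    let A : Matrix (Fin T) (κ × Fin (M * L + 1)) ℤ := fun i p =>
      if (p.2 : ℕ) ≤ i then z p.1 (i - p.2) else 0
    have hcα : Fintype.card (Fin T) = T := Fintype.card_fin T
    have hcβ : Fintype.card (κ × Fin (M * L + 1)) = μ * (M * L + 1) := by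
      rw [Fintype.card_prod, Fintype.card_fin]
    have hμM : 1 ≤ μ * M := Nat.one_le_iff_ne_zero.2 (by positivity)
    have hTL : T + L = μ * M * L := by
      rw [hT, Nat.sub_mul, one_mul]
      exact Nat.sub_add_cancel (Nat.le_mul_of_pos_left L (by omega))
    have hβ : μ * (M * L + 1) = T + L + μ := by
      rw [hTL]; ring
    have hTle : T + 1 ≤ μ * M * L := by omega
    have hlt : Fintype.card (Fin T) < Fintype.card (κ × Fin (M * L + 1)) := by
      rw [hcα, hcβ, hβ]; omega
    have hE : Fintype.card (Fin T) ≤ (μ * M) *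
        (Fintype.card (κ × Fin (M * L + 1)) - Fintype.card (Fin T)) := by
      rw [hcα, hcβ, hβ]
      have h1 : T + L + μ - T = L + μ := by omega
      rw [h1]
      calc T ≤ μ * M * L := by omega
        _ ≤ _ := Nat.mul_le_mul_left _ (by omega)
    have hBb : ∀ i j, |((A i j : ℤ) : ℝ)| ≤ C₀ ^ (2 * μ * M * L) := by
      intro i j
      by_cases hij : (j.2 : ℕ) ≤ i
      · have hle : (i : ℕ) - j.2 ≤ T := by have := i.2; omega
        have h1 := hz j.1 _ hle
        have h2 : ((A i j : ℤ) : ℝ) = D * ((PowerSeries.coeff ((i : ℕ) - j.2) (h j.1) : ℚ) : ℝ) := by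
          change (((if (j.2 : ℕ) ≤ i then z j.1 (i - j.2) else 0 : ℤ)) : ℝ) = _
          rw [if_pos hij]
          have h3 : (((z j.1 (i - j.2) : ℤ) : ℚ) : ℝ) = (((D : ℚ) *
            PowerSeries.coeff ((i : ℕ) - j.2) (h j.1) : ℚ) : ℝ) := by rw [h1]
          push_cast at h3
          exact h3
        rw [h2, abs_mul, abs_of_nonneg (by positivity : (0 : ℝ) ≤ D)]
        calc (D : ℝ) * |((PowerSeries.coeff ((i : ℕ) - j.2) (h j.1) : ℚ) : ℝ)|
            ≤ C₀ ^ (T + 1) * C₀ ^ ((i : ℕ) - j.2 + 1) :=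
              mul_le_mul hDb (hG.bound _ _) (abs_nonneg _) (by positivity)
          _ ≤ C₀ ^ (T + 1) * C₀ ^ (T + 1) :=
              mul_le_mul_of_nonneg_left (pow_le_pow_right₀ hC₀ (by omega)) (by positivity)
          _ = C₀ ^ (2 * (T + 1)) := by rw [← pow_add]; congr 1; ring
          _ ≤ _ := pow_le_pow_right₀ hC₀ (by
              calc 2 * (T + 1) ≤ 2 * (μ * M * L) := Nat.mul_le_mul_left _ hTle
                _ = _ := by ring)
      · have h2 : A i j = 0 := if_neg hij
        rw [h2, Int.cast_zero, abs_zero]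
        positivity
    obtain ⟨t, ht0, hAt, htb⟩ := siegel A hlt (by rw [hcα]; omega) hE
      (one_le_pow₀ hC₀ : 1 ≤ C₀ ^ (2 * μ * M * L)) hBb
    let t' : κ → ℕ → ℤ := fun x j => if hj : j < M * L + 1 then t (x, ⟨j, hj⟩) else 0
    let P : κ → ℤ[X] := fun x => ∑ j ∈ Finset.range (M * L + 1), Polynomial.monomial j (t' x j)
    have hPc : ∀ x j, (P x).coeff j = t' x j := by
      intro x j
      simp only [P, Polynomial.finsetSum_coeff, Polynomial.coeff_monomial]
      by_cases hj : j < M * L + 1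
      · rw [Finset.sum_ite_eq' (Finset.range (M * L + 1)) j (fun k => t' x k),
          if_pos (Finset.mem_range.2 hj)]
      · rw [Finset.sum_ite_eq' (Finset.range (M * L + 1)) j (fun k => t' x k),
          if_neg (fun hh => hj (Finset.mem_range.1 hh))]
        have h1 : t' x j = 0 := dif_neg hj
        rw [h1]
    have ht'v : ∀ x (j : Fin (M * L + 1)), t' x j = t (x, j) := by
      intro x j
      exact dif_pos j.2
    refine ⟨P, ?_, ?_, ?_, ?_⟩
    · intro h0
      apply ht0
      funext p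
      have h1 : (P p.1).coeff p.2 = 0 := by rw [h0]; simp
      rw [hPc, ht'v] at h1
      exact h1
    · intro x
      refine Polynomial.natDegree_le_iff_coeff_eq_zero.2 fun j hj => ?_
      rw [hPc]
      exact dif_neg (by omega)
    · intro x j
      rw [hPc]
      by_cases hj : j < M * L + 1
      · have h1 : t' x j = t (x, ⟨j, hj⟩) := dif_pos hj
        rw [h1]
        refine (htb _).trans ?_
        have h2 : (Fintype.card (κ × Fin (M * L + 1)) : ℝ) * C₀ ^ (2 * μ * M * L) ≤ B₁ ^ L := by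
          rw [hcβ, hB₁, mul_pow, ← pow_mul]
          refine mul_le_mul_of_nonneg_right ?_ (by positivity)
          have h3 : μ * (M * L + 1) ≤ (2 * μ * (M + 1)) ^ L := by
            have h4 : L ≤ 2 ^ L := Nat.lt_two_pow_self.le
            calc μ * (M * L + 1) ≤ μ * ((M + 1) * L) := Nat.mul_le_mul_left _ (by nlinarith)
              _ = (μ * (M + 1)) * L := by ring
              _ ≤ (μ * (M + 1)) ^ L * 2 ^ L := by
                  refine Nat.mul_le_mul ?_ h4
                  exact Nat.le_self_pow (by omega) _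
              _ = _ := by rw [← mul_pow]; congr 1; ring
          exact_mod_cast h3
        calc ((Fintype.card (κ × Fin (M * L + 1)) : ℝ) * C₀ ^ (2 * μ * M * L)) ^ (μ * M)
            ≤ (B₁ ^ L) ^ (μ * M) := pow_le_pow_left₀ (by positivity) h2 _
          _ = (B₁ ^ (μ * M)) ^ L := by rw [← pow_mul, ← pow_mul, mul_comm]
      · have h1 : t' x j = 0 := dif_neg hj
        rw [h1, Int.cast_zero, abs_zero]
        positivity
    · intro i hi
      have h1 := congrFun hAt ⟨i, hi⟩
      have h2 : (D : ℚ) * PowerSeries.coeff i (lform P h) = (((A.mulVec t) ⟨i, hi⟩ : ℤ) : ℚ) := by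
        rw [coeff_lform, Matrix.mulVec, dotProduct, Fintype.sum_prod_type, Finset.mul_sum]
        push_cast
        refine Finset.sum_congr rfl fun x _ => ?_
        rw [Finset.mul_sum]
        have h3 : ∀ a ∈ Finset.range (i + 1), (D : ℚ) * (((P x).coeff a : ℚ) *
            PowerSeries.coeff (i - a) (h x)) = (t' x a : ℚ) * z x (i - a) := by
          intro a _
          rw [hPc, ← hz x (i - a) (by omega)]
          ring
        rw [Finset.sum_congr rfl h3]
        have h4 : ∀ j : Fin (M * L + 1), ((A ⟨i, hi⟩ (x, j) : ℤ) : ℚ) * ((t (x, j) : ℤ) : ℚ) =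
            (fun a : ℕ => if a ≤ i then (t' x a : ℚ) * z x (i - a) else 0) j := by
          intro j
          change (((if (j : ℕ) ≤ i then z x (i - j) else 0 : ℤ)) : ℚ) * _ = _
          by_cases hj : (j : ℕ) ≤ i
          · simp only [if_pos hj, ht'v]
            ring
          · simp only [if_neg hj, Int.cast_zero, zero_mul]
        rw [Finset.sum_congr rfl fun j _ => h4 j, ← Finset.sum_range
          (fun a : ℕ => if a ≤ i then (t' x a : ℚ) * z x (i - a) else 0), ← Finset.sum_filter]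
        symm
        refine Finset.sum_subset ?_ ?_
        · intro a ha
          rw [Finset.mem_filter] at ha
          exact Finset.mem_range.2 (by omega)
        · intro a ha hna
          rw [Finset.mem_filter, not_and_or] at hna
          rw [Finset.mem_range] at ha
          have h5 : t' x a = 0 := by
            rcases hna with hna | hna
            · exact dif_neg (fun hh => hna (Finset.mem_range.2 hh))
            · omega
          rw [h5, Int.cast_zero, zero_mul]
      rw [h1, Pi.zero_apply, Int.cast_zero] at h2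
      rcases mul_eq_zero.1 h2 with h3 | h3
      · exfalso
        have : D = 0 := by exact_mod_cast h3
        omega
      · exact h3

end Pool.Agent.Helper51_MT
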