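import Pool.Agent.MT100.Stmts
import Pool.Agent.Helper51_MT.Greedy
import Pool.Agent.Helper51_MT.Sie

/-!
# MT100: the modules ELI and SIE in the form of `Stmts.lean`
-/

open scoped BigOperators
open Polynomial

noncomputable section

namespace Pool.Agent.Helper51_MT

open Pool.Agent.MT100

/-- ELI -/
theorem eli : EliStmt := by
  intro m _ _ J q MM x hq hMM hJ h
  obtain ⟨c, hc, hrel⟩ := greedy (k := ℚ) (K := ℂ) hJ q hq x MM hMM h
  exact ⟨J, le_rfl, c, hc, hrel⟩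

/-- a finite family of series of G-type has a common constant -/
theorem gt_of_gtype {Λ : Type} [Fintype Λ] (h : Λ → PowerSeries ℚ) (hh : ∀ l, GType (h l)) :
    ∃ C : ℝ, GT C h := by
  classical
  choose c hc0 hc using hh
  have hle : ∀ l, (c l : ℝ) ≤ ((∏ l, c l : ℕ) : ℝ) := by
    intro l
    have h1 : c l ∣ ∏ l, c l := Finset.dvd_prod_of_mem c (Finset.mem_univ l)
    exact_mod_cast Nat.le_of_dvd (Finset.prod_pos fun l _ => hc0 l) h1
  refine ⟨((∏ l, c l : ℕ) : ℝ), ?_, ?_, ?_⟩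
  · exact_mod_cast Nat.one_le_iff_ne_zero.2 (Finset.prod_pos fun l _ => hc0 l).ne'
  · intro l k
    have h1 := (hc l k).1
    have h2 : |((PowerSeries.coeff k (h l) : ℚ) : ℝ)| ≤ (c l : ℝ) ^ (k + 1) := by
      exact_mod_cast h1
    exact h2.trans (pow_le_pow_left₀ (Nat.cast_nonneg _) (hle l) _)
  · intro k
    choose D hD0 hDle hDz using fun l => (hc l k).2
    refine ⟨∏ l, D l, Finset.prod_pos fun l _ => hD0 l, ?_, ?_⟩
    · have h1 : ∏ l, D l ≤ (∏ l, c l) ^ (k + 1) := by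
        rw [← Finset.prod_pow]
        exact Finset.prod_le_prod' fun l _ => hDle l
      exact_mod_cast h1
    · intro l j hj
      obtain ⟨z, hz⟩ := hDz l j hj
      refine ⟨(∏ l' ∈ Finset.univ.erase l, (D l' : ℤ)) * z, ?_⟩
      rw [← Finset.mul_prod_erase Finset.univ D (Finset.mem_univ l)]
      push_cast
      rw [← hz]
      ring

/-- SIE -/
theorem sieStmt : SieStmt := by
  intro Λ _ _ h hh M hM
  obtain ⟨C₀, hG⟩ := gt_of_gtype h hh
  obtain ⟨C, hC1, hC⟩ := sie hG hM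
  refine ⟨⌈C⌉₊, Nat.ceil_pos.2 (by linarith), fun L hL => ?_⟩
  obtain ⟨P, hP0, hdeg, hco, hz⟩ := hC L hL
  refine ⟨P, hP0, fun l => ⟨hdeg l, fun i => ?_⟩, fun i hi => hz i hi⟩
  have h1 : |(((P l).coeff i : ℤ) : ℝ)| ≤ ((⌈C⌉₊ : ℕ) : ℝ) ^ L :=
    (hco l i).trans (pow_le_pow_left₀ (by linarith) (Nat.le_ceil C) _)
  exact_mod_cast h1

end Pool.Agent.Helper51_MT
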