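import Pool.Agent.MT100.Stmts

/-!
# MT100, module ANA: the fundamental matrix on `(λ, ∞)`
-/

open scoped BigOperators
open Polynomial

noncomputable section

namespace Pool.Agent.Helper51_MT

open Pool.Agent.MT100 Matrix

/-! ### Summability and derivatives -/

/-- absolute summability -/
def SAt (f : PowerSeries ℚ) (x : ℝ) : Prop :=
  Summable fun k => |((PowerSeries.coeff k f : ℚ) : ℝ)| * |x| ^ k

/-- polynomial times geometric growth -/
def Gro (C : ℕ) (lam : ℝ) (f : PowerSeries ℚ) : Prop :=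
  ∀ k : ℕ, |((PowerSeries.coeff k f : ℚ) : ℝ)| ≤ (C : ℝ) * ((k : ℝ) + 1) ^ C * lam ^ k

theorem summable_geo (m : ℕ) {r : ℝ} (hr0 : 0 ≤ r) (hr : r < 1) :
    Summable fun k : ℕ => ((k : ℝ) + 1) ^ m * r ^ k := by
  have h1 : Summable fun k : ℕ => (k : ℝ) ^ m * r ^ k :=
    summable_pow_mul_geometric_of_norm_lt_one m (by rwa [Real.norm_of_nonneg hr0])
  have h2 : Summable fun k : ℕ => r ^ k := summable_geometric_of_lt_one hr0 hr
  refine Summable.of_nonneg_of_le (fun k => by positivity) (fun k => ?_)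
    ((h1.mul_left (2 ^ m)).add h2)
  have h3 : ((k : ℝ) + 1) ^ m ≤ 2 ^ m * (k : ℝ) ^ m + 1 := by
    rcases Nat.eq_zero_or_pos k with hk | hk
    · subst hk
      simp only [Nat.cast_zero, zero_add, one_pow]
      have : (0 : ℝ) ≤ 2 ^ m * 0 ^ m := by positivity
      linarith
    · have hk' : (1 : ℝ) ≤ k := by exact_mod_cast hk
      have : ((k : ℝ) + 1) ^ m ≤ (2 * k) ^ m := pow_le_pow_left₀ (by linarith) (by linarith) m
      rw [mul_pow] at this
      linarith
  calc ((k : ℝ) + 1) ^ m * r ^ k ≤ (2 ^ m * (k : ℝ) ^ m + 1) * r ^ k :=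
        mul_le_mul_of_nonneg_right h3 (by positivity)
    _ = _ := by ring

theorem sat_of_gro {C : ℕ} {lam : ℝ} (hlam : 0 ≤ lam) {f : PowerSeries ℚ} (hf : Gro C lam f)
    {x : ℝ} (hx : lam * |x| < 1) : SAt f x := by
  have h1 := (summable_geo C (mul_nonneg hlam (abs_nonneg x)) hx).mul_left (C : ℝ)
  refine Summable.of_nonneg_of_le (fun k => by positivity) (fun k => ?_) h1
  calc |((PowerSeries.coeff k f : ℚ) : ℝ)| * |x| ^ k
      ≤ ((C : ℝ) * ((k : ℝ) + 1) ^ C * lam ^ k) * |x| ^ k :=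
        mul_le_mul_of_nonneg_right (hf k) (by positivity)
    _ = _ := by rw [mul_pow]; ring

theorem coeff_dv (f : PowerSeries ℚ) (k : ℕ) :
    PowerSeries.coeff k (dv f) = PowerSeries.coeff (k + 1) f * (k + 1) :=
  PowerSeries.coeff_derivative f k

theorem gro_dv {C : ℕ} {lam : ℝ} (hlam : 0 ≤ lam) {f : PowerSeries ℚ} (hf : Gro C lam f) :
    ∃ C', Gro C' lam (dv f) := by
  obtain ⟨m, hm⟩ := exists_nat_ge ((C : ℝ) * 2 ^ C * lam + C + 1)
  refine ⟨m, fun k => ?_⟩
  have hCm : C + 1 ≤ m := by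
    have h1 : ((C + 1 : ℕ) : ℝ) ≤ m := by
      push_cast
      refine le_trans ?_ hm
      have : 0 ≤ (C : ℝ) * 2 ^ C * lam := by positivity
      linarith
    exact_mod_cast h1
  have hk1 : (1 : ℝ) ≤ (k : ℝ) + 1 := by
    have : (0 : ℝ) ≤ k := Nat.cast_nonneg k
    linarith
  rw [coeff_dv]
  push_cast
  rw [abs_mul, abs_of_nonneg (by positivity : (0 : ℝ) ≤ (k : ℝ) + 1)]
  have h2 := hf (k + 1)
  push_cast at h2
  have h3 : ((k : ℝ) + 1 + 1) ^ C ≤ 2 ^ C * ((k : ℝ) + 1) ^ C := by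
    rw [← mul_pow]
    exact pow_le_pow_left₀ (by linarith) (by linarith) C
  calc |((PowerSeries.coeff (k + 1) f : ℚ) : ℝ)| * ((k : ℝ) + 1)
      ≤ ((C : ℝ) * ((k : ℝ) + 1 + 1) ^ C * lam ^ (k + 1)) * ((k : ℝ) + 1) :=
        mul_le_mul_of_nonneg_right h2 (by linarith)
    _ ≤ ((C : ℝ) * (2 ^ C * ((k : ℝ) + 1) ^ C) * lam ^ (k + 1)) * ((k : ℝ) + 1) := by
        gcongr
    _ = ((C : ℝ) * 2 ^ C * lam) * ((k : ℝ) + 1) ^ (C + 1) * lam ^ k := by ring
    _ ≤ (m : ℝ) * ((k : ℝ) + 1) ^ m * lam ^ k := by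
        have h4 : (C : ℝ) * 2 ^ C * lam ≤ m := by
          refine le_trans ?_ hm
          have : (0 : ℝ) ≤ C := Nat.cast_nonneg C
          linarith
        have h5 : ((k : ℝ) + 1) ^ (C + 1) ≤ ((k : ℝ) + 1) ^ m := pow_le_pow_right₀ hk1 hCm
        gcongr

/-- the derivative of the value -/
theorem hasDerivAt_ev {C : ℕ} {lam : ℝ} (hlam : 0 < lam) {f : PowerSeries ℚ} (hf : Gro C lam f)
    {x : ℝ} (hx : lam * |x| < 1) : HasDerivAt (ev f) (ev (dv f) x) x := by
  obtain ⟨ρ, hρ1, hρ2⟩ : ∃ ρ, |x| < ρ ∧ ρ < 1 / lam :=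
    exists_between (by rw [lt_div_iff₀ hlam]; linarith [mul_comm lam |x|])
  have hρ0 : 0 < ρ := lt_of_le_of_lt (abs_nonneg x) hρ1
  have hρ3 : lam * |ρ| < 1 := by
    rw [abs_of_pos hρ0]
    rw [lt_div_iff₀ hlam] at hρ2
    linarith [mul_comm lam ρ]
  obtain ⟨C', hC'⟩ := gro_dv hlam.le hf
  have hs : SAt (dv f) ρ := sat_of_gro hlam.le hC' hρ3
  set g : ℕ → ℝ → ℝ := fun n y => ((PowerSeries.coeff n f : ℚ) : ℝ) * y ^ n with hg
  set g' : ℕ → ℝ → ℝ := fun n y => ((PowerSeries.coeff n f : ℚ) : ℝ) * (n * y ^ (n - 1)) with hg'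
  set u : ℕ → ℝ := fun n => |((PowerSeries.coeff n f : ℚ) : ℝ)| * (n * ρ ^ (n - 1)) with hu
  have hus : Summable u := by
    rw [← summable_nat_add_iff 1]
    refine hs.congr fun n => ?_
    rw [hu, coeff_dv]
    simp only [Nat.add_sub_cancel]
    push_cast
    rw [abs_mul, abs_of_nonneg (by positivity : (0 : ℝ) ≤ (n : ℝ) + 1), abs_of_pos hρ0]
    ring
  have hgd : ∀ n y, y ∈ Metric.ball (0 : ℝ) ρ → HasDerivAt (g n) (g' n y) y := by
    intro n y _
    exact (hasDerivAt_pow n y).const_mul _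
  have hgb : ∀ n y, y ∈ Metric.ball (0 : ℝ) ρ → ‖g' n y‖ ≤ u n := by
    intro n y hy
    rw [mem_ball_zero_iff] at hy
    rw [hg', hu]
    simp only [norm_mul, norm_pow, Real.norm_natCast]
    rw [Real.norm_eq_abs, Real.norm_eq_abs] at *
    gcongr
  have hx' : x ∈ Metric.ball (0 : ℝ) ρ := by
    rw [mem_ball_zero_iff, Real.norm_eq_abs]
    exact hρ1
  have hsum0 : Summable fun n => g n x := by
    have h1 := sat_of_gro hlam.le hf hx
    refine Summable.of_norm_bounded h1 fun n => ?_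
    rw [hg, norm_mul, norm_pow, Real.norm_eq_abs, Real.norm_eq_abs]
  have h1 := hasDerivAt_tsum_of_isPreconnected hus Metric.isOpen_ball
    (convex_ball (0 : ℝ) ρ).isPreconnected hgd hgb hx' hsum0 hx'
  have h2 : ∑' n, g' n x = ev (dv f) x := by
    have h3 : Summable fun n => g' n x := Summable.of_norm_bounded hus fun n => hgb n x hx'
    rw [h3.tsum_eq_zero_add, ev]
    have h4 : g' 0 x = 0 := by simp [hg']
    rw [h4, zero_add]
    refine tsum_congr fun n => ?_
    rw [hg', coeff_dv]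
    simp only [Nat.add_sub_cancel]
    push_cast
    ring
  rw [h2] at h1
  exact h1

/-! ### Evaluation of matrix identities -/

/-- the third clause of EVA -/
def EvaMul : Prop := ∀ (f g : PowerSeries ℚ) (x : ℝ), SAt f x → SAt g x →
  SAt (f * g) x ∧ SAt (f + g) x ∧ ev (f + g) x = ev f x + ev g x ∧ ev (f * g) x = ev f x * ev g x

theorem sat_poly (p : ℚ[X]) (x : ℝ) : SAt (p : PowerSeries ℚ) x := by
  refine summable_of_ne_finset_zero (s := Finset.range (p.natDegree + 1)) fun k hk => ?_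
  rw [Finset.mem_range, not_lt] at hk
  rw [Polynomial.coeff_coe, Polynomial.coeff_eq_zero_of_natDegree_lt (by omega)]
  simp

theorem sat_zero (x : ℝ) : SAt 0 x := by
  have := sat_poly 0 x
  rwa [Polynomial.coe_zero] at this

theorem ev_zero (x : ℝ) : ev 0 x = 0 := by
  simp [ev]

theorem ev_sum (hE : EvaMul) {σ : Type*} (s : Finset σ) (f : σ → PowerSeries ℚ) (x : ℝ)
    (hf : ∀ i ∈ s, SAt (f i) x) : SAt (∑ i ∈ s, f i) x ∧ ev (∑ i ∈ s, f i) x = ∑ i ∈ s, ev (f i) x := by
  classical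
  induction s using Finset.induction_on with
  | empty => exact ⟨by rw [Finset.sum_empty]; exact sat_zero x, by simp [ev_zero]⟩
  | insert a s ha ih =>
    obtain ⟨h1, h2⟩ := ih fun i hi => hf i (Finset.mem_insert_of_mem hi)
    obtain ⟨-, h3, h4, -⟩ := hE (f a) (∑ i ∈ s, f i) x (hf a (Finset.mem_insert_self a s)) h1
    rw [Finset.sum_insert ha, Finset.sum_insert ha]
    exact ⟨h3, by rw [h4, h2]⟩

theorem ev_matMul (hE : EvaMul) {a b c : Type*} [Fintype b] (A : Matrix a b (PowerSeries ℚ))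
    (B : Matrix b c (PowerSeries ℚ)) (x : ℝ) (hA : ∀ i j, SAt (A i j) x) (hB : ∀ i j, SAt (B i j) x) :
    (∀ i j, SAt ((A * B) i j) x) ∧
      (A * B).map (fun f => ev f x) = A.map (fun f => ev f x) * B.map (fun f => ev f x) := by
  constructor
  · intro i j
    rw [Matrix.mul_apply]
    exact (ev_sum hE _ _ x fun k _ => (hE _ _ x (hA i k) (hB k j)).1).1
  · ext i j
    rw [Matrix.map_apply, Matrix.mul_apply, Matrix.mul_apply,
      (ev_sum hE _ _ x fun k _ => (hE _ _ x (hA i k) (hB k j)).1).2]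
    refine Finset.sum_congr rfl fun k _ => ?_
    rw [(hE _ _ x (hA i k) (hB k j)).2.2.2]
    rfl

/-! ### The matrix `en` -/

theorem hasDerivAt_en (r : ℕ) (t : ℝ) (l i : Fin r) :
    HasDerivAt (fun t => en r t l i)
      (((Nsh r).map (fun x => (x : ℝ)) * en r t) l i) t := by
  have hN : ((Nsh r).map (fun x => (x : ℝ)) * en r t) l i =
      if h : (l : ℕ) + 1 < r then en r t ⟨l + 1, h⟩ i else 0 := by
    rw [Matrix.mul_apply]
    by_cases h : (l : ℕ) + 1 < r
    · rw [dif_pos h, Finset.sum_eq_single (⟨l + 1, h⟩ : Fin r)]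
      · simp [Nsh]
      · intro b _ hb
        have : ¬ ((l : ℕ) + 1 = b) := fun h' => hb (Fin.ext h'.symm)
        simp [Nsh, this]
      · intro h'; exact absurd (Finset.mem_univ _) h'
    · rw [dif_neg h]
      refine Finset.sum_eq_zero fun b _ => ?_
      have : ¬ ((l : ℕ) + 1 = b) := fun h' => h (h' ▸ b.2)
      simp [Nsh, this]
  rw [hN]
  by_cases hli : l ≤ i
  · by_cases hlt : (l : ℕ) < i
    · have hr : (l : ℕ) + 1 < r := lt_of_le_of_lt hlt i.2
      rw [dif_pos hr]
      have hle : (⟨l + 1, hr⟩ : Fin r) ≤ i := hlt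
      obtain ⟨m, hm⟩ : ∃ m, (i : ℕ) - l = m + 1 := ⟨(i : ℕ) - l - 1, by omega⟩
      have hm' : (i : ℕ) - (l + 1) = m := by omega
      simp only [en, if_pos hli, if_pos hle, hm, hm', Rat.smul_def]
      have h1 := (hasDerivAt_pow (m + 1) t).const_mul (((((m + 1).factorial : ℚ)⁻¹ : ℚ)) : ℝ)
      refine h1.congr_deriv ?_
      rw [Nat.add_sub_cancel]
      push_cast [Nat.factorial_succ]
      have h2 : ((m : ℝ) + 1) ≠ 0 := by positivity
      have h3 : ((m.factorial : ℕ) : ℝ) ≠ 0 := by positivity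
      field_simp
    · have hli' : l = i := le_antisymm hli (by
        have : (i : ℕ) ≤ l := not_lt.1 hlt
        exact this)
      subst hli'
      have h1 : (if h : (l : ℕ) + 1 < r then en r t ⟨l + 1, h⟩ l else 0) = 0 := by
        by_cases h : (l : ℕ) + 1 < r
        · rw [dif_pos h]
          have : ¬ ((⟨l + 1, h⟩ : Fin r) ≤ l) := by
            intro h'
            have : (l : ℕ) + 1 ≤ l := h'
            omega
          simp only [en, if_neg this]
        · rw [dif_neg h]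
      rw [h1]
      have h2 : (fun t : ℝ => en r t l l) = fun _ => 1 := by
        funext t
        simp [en]
      rw [h2]
      exact hasDerivAt_const t 1
  · have h1 : (if h : (l : ℕ) + 1 < r then en r t ⟨l + 1, h⟩ i else 0) = 0 := by
      by_cases h : (l : ℕ) + 1 < r
      · rw [dif_pos h]
        have : ¬ ((⟨l + 1, h⟩ : Fin r) ≤ i) := by
          intro h'
          apply hli
          have h2 : (l : ℕ) + 1 ≤ i := h'
          exact (by omega : (l : ℕ) ≤ i)
        simp only [en, if_neg this]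
      · rw [dif_neg h]
    rw [h1]
    have h2 : (fun t : ℝ => en r t l i) = fun _ => 0 := by
      funext t
      simp only [en, if_neg hli]
    rw [h2]
    exact hasDerivAt_const t 0

theorem nsh_J0 (r : ℕ) : ((Nsh r).map (fun x => (x : ℝ)))ᵀ * (J0 r).map (fun x => (x : ℝ)) +
    (J0 r).map (fun x => (x : ℝ)) * (Nsh r).map (fun x => (x : ℝ)) = 0 := by
  ext i j
  rw [Matrix.add_apply, Matrix.mul_apply, Matrix.mul_apply, Matrix.zero_apply]
  have h1 : ∑ k, ((Nsh r).map (fun x => (x : ℝ)))ᵀ i k * (J0 r).map (fun x => (x : ℝ)) k j =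
      if 1 ≤ (i : ℕ) ∧ (i : ℕ) + j = r then (-1 : ℝ) ^ ((i : ℕ) - 1) else 0 := by
    by_cases hi : 1 ≤ (i : ℕ)
    · have hlt : (i : ℕ) - 1 < r := by omega
      rw [Finset.sum_eq_single (⟨i - 1, hlt⟩ : Fin r)]
      · have h2 : (i : ℕ) - 1 + 1 = i := by omega
        by_cases hij : (i : ℕ) + j = r
        · have h3 : (i : ℕ) - 1 + j + 1 = r := by omega
          simp [Nsh, J0, h2, h3, hij, hi]
        · have h3 : ¬ ((i : ℕ) - 1 + j + 1 = r) := by omega
          simp [Nsh, J0, h2, h3, hij]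
      · intro b _ hb
        have h2 : ¬ ((b : ℕ) + 1 = i) := by
          intro h'
          apply hb
          apply Fin.ext
          change (b : ℕ) = i - 1
          omega
        simp [Nsh, h2]
      · intro h'; exact absurd (Finset.mem_univ _) h'
    · rw [if_neg (fun h => hi h.1)]
      refine Finset.sum_eq_zero fun b _ => ?_
      have h2 : ¬ ((b : ℕ) + 1 = i) := by omega
      simp [Nsh, h2]
  have h2 : ∑ k, (J0 r).map (fun x => (x : ℝ)) i k * (Nsh r).map (fun x => (x : ℝ)) k j =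
      if 1 ≤ (j : ℕ) ∧ (i : ℕ) + j = r then (-1 : ℝ) ^ (i : ℕ) else 0 := by
    by_cases hj : 1 ≤ (j : ℕ)
    · have hlt : (j : ℕ) - 1 < r := by omega
      rw [Finset.sum_eq_single (⟨j - 1, hlt⟩ : Fin r)]
      · have h2 : (j : ℕ) - 1 + 1 = j := by omega
        by_cases hij : (i : ℕ) + j = r
        · have h3 : (i : ℕ) + (j - 1) + 1 = r := by omega
          simp [Nsh, J0, h2, h3, hij, hj]
        · have h3 : ¬ ((i : ℕ) + (j - 1) + 1 = r) := by omega
          simp [Nsh, J0, h2, h3, hij]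
      · intro b _ hb
        have h2 : ¬ ((b : ℕ) + 1 = j) := by
          intro h'
          apply hb
          apply Fin.ext
          change (b : ℕ) = j - 1
          omega
        simp [Nsh, h2]
      · intro h'; exact absurd (Finset.mem_univ _) h'
    · rw [if_neg (fun h => hj h.1)]
      refine Finset.sum_eq_zero fun b _ => ?_
      have h2 : ¬ ((b : ℕ) + 1 = j) := by omega
      simp [Nsh, h2]
  rw [h1, h2]
  have hi := i.2
  have hj := j.2
  by_cases hij : (i : ℕ) + j = r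
  · have hi1 : 1 ≤ (i : ℕ) := by omega
    have hj1 : 1 ≤ (j : ℕ) := by omega
    rw [if_pos ⟨hi1, hij⟩, if_pos ⟨hj1, hij⟩]
    obtain ⟨m, hm⟩ : ∃ m, (i : ℕ) = m + 1 := ⟨(i : ℕ) - 1, by omega⟩
    rw [hm, Nat.add_sub_cancel, pow_succ]
    ring
  · rw [if_neg (fun h => hij h.2), if_neg (fun h => hij h.2), add_zero]

theorem en_zero (r : ℕ) : en r (0 : ℝ) = 1 := by
  ext l i
  by_cases h : l = i
  · subst h
    simp [en]
  · rw [Matrix.one_apply_ne h]
    by_cases hli : l ≤ i
    · have h1 : (i : ℕ) - l ≠ 0 := by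
        have h2 : (l : ℕ) ≤ i := hli
        have h3 : (l : ℕ) ≠ i := fun h' => h (Fin.ext h')
        omega
      simp only [en, if_pos hli, zero_pow h1, smul_zero]
    · simp only [en, if_neg hli]

theorem en_J0 (r : ℕ) (t : ℝ) :
    (en r t)ᵀ * (J0 r).map (fun x => (x : ℝ)) * en r t = (J0 r).map (fun x => (x : ℝ)) := by
  set J := (J0 r).map (fun x => (x : ℝ)) with hJ
  set N := (Nsh r).map (fun x => (x : ℝ)) with hN
  have key : ∀ i j, ∀ t : ℝ, HasDerivAt (fun t => ((en r t)ᵀ * J * en r t) i j) 0 t := by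
    intro i j t
    have h1 : (fun t => ((en r t)ᵀ * J * en r t) i j) = fun t =>
        ∑ b, (∑ a, en r t a i * J a b) * en r t b j := by
      funext t
      rw [Matrix.mul_apply]
      refine Finset.sum_congr rfl fun b _ => ?_
      rw [Matrix.mul_apply]
      rfl
    rw [h1]
    have h2 : HasDerivAt (fun t => ∑ b, (∑ a, en r t a i * J a b) * en r t b j)
        (∑ b, ((∑ a, (N * en r t) a i * J a b) * en r t b j +
          (∑ a, en r t a i * J a b) * (N * en r t) b j)) t := by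
      refine HasDerivAt.fun_sum fun b _ => ?_
      refine HasDerivAt.mul ?_ (hasDerivAt_en r t b j)
      refine HasDerivAt.fun_sum fun a _ => ?_
      exact (hasDerivAt_en r t a i).mul_const _
    refine h2.congr_deriv ?_
    have h3 : ∑ b, ((∑ a, (N * en r t) a i * J a b) * en r t b j +
          (∑ a, en r t a i * J a b) * (N * en r t) b j) =
        ((N * en r t)ᵀ * J * en r t + (en r t)ᵀ * J * (N * en r t)) i j := by
      rw [Matrix.add_apply, Matrix.mul_apply, Matrix.mul_apply, ← Finset.sum_add_distrib]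
      refine Finset.sum_congr rfl fun b _ => ?_
      rw [Matrix.mul_apply, Matrix.mul_apply]
      rfl
    rw [h3]
    have h4 : (N * en r t)ᵀ * J * en r t + (en r t)ᵀ * J * (N * en r t) =
        (en r t)ᵀ * (Nᵀ * J + J * N) * en r t := by
      rw [Matrix.transpose_mul]
      simp only [Matrix.mul_add, Matrix.add_mul, Matrix.mul_assoc]
    rw [h4, nsh_J0, Matrix.mul_zero, Matrix.zero_mul, Matrix.zero_apply]
  ext i j
  have h1 : ∀ x y : ℝ, (fun t => ((en r t)ᵀ * J * en r t) i j) x =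
      (fun t => ((en r t)ᵀ * J * en r t) i j) y :=
    is_const_of_deriv_eq_zero (fun t => (key i j t).differentiableAt) (fun t => (key i j t).deriv)
  have h2 := h1 t 0
  simp only [en_zero, Matrix.transpose_one, Matrix.one_mul, Matrix.mul_one] at h2
  exact h2

theorem J0_sq (D : Dat) : (J0 D.r).map (fun x => (x : ℝ)) * (J0 D.r).map (fun x => (x : ℝ)) =
    -1 := by
  ext i j
  have hi := i.2
  have hj := j.2
  have hr := D.r_pos
  have hlt : D.r - 1 - i < D.r := by omega
  rw [Matrix.mul_apply, Finset.sum_eq_single (⟨D.r - 1 - i, hlt⟩ : Fin D.r)]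
  · have h1 : (i : ℕ) + (D.r - 1 - i) + 1 = D.r := by omega
    by_cases hij : i = j
    · subst hij
      have h2 : D.r - 1 - (i : ℕ) + i + 1 = D.r := by omega
      simp only [Matrix.map_apply, J0, h1, h2, if_true, Matrix.neg_apply, Matrix.one_apply_eq]
      push_cast
      rw [← pow_add]
      have h3 : (i : ℕ) + (D.r - 1 - i) = 2 * (D.s - 1) + 1 := by
        have h4 := D.two_le
        change (i : ℕ) + (2 * D.s - 1 - i) = _
        change (i : ℕ) < 2 * D.s at hi
        omega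
      rw [h3, pow_succ, pow_mul]
      norm_num
    · have h2 : ¬ (D.r - 1 - (i : ℕ) + j + 1 = D.r) := by
        intro h3
        apply hij
        apply Fin.ext
        omega
      simp only [Matrix.map_apply, J0, h2, if_false, Matrix.neg_apply, Matrix.one_apply_ne hij]
      simp
  · intro b _ hb
    have h1 : ¬ ((i : ℕ) + b + 1 = D.r) := by
      intro h'
      apply hb
      apply Fin.ext
      change (b : ℕ) = D.r - 1 - i
      omega
    simp only [Matrix.map_apply, J0, h1, if_false]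
    simp
  · intro h'; exact absurd (Finset.mem_univ _) h'

/-! ### The module -/

theorem gro_hyp (hg : HgrStmt) (D : Dat) : ∃ C : ℕ, ∀ a l, Gro C (D.lam : ℝ) (Hyp D a l) := by
  obtain ⟨C, hC⟩ := hg D
  refine ⟨C, fun a l k => ?_⟩
  have h1 := hC a l k
  have h2 : ((|PowerSeries.coeff k (Hyp D a l)| : ℚ) : ℝ) ≤
      (((C : ℚ) * ((k : ℚ) + 1) ^ C * D.lam ^ k : ℚ) : ℝ) := by exact_mod_cast h1
  push_cast at h2
  exact h2

theorem W_eq (D : Dat) (w : ℝ) :
    W D w = (Hyp D).map (fun f => ev f w⁻¹) * en D.r (-Real.log w) := rfl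

theorem pair_ev (hEp : ∀ (p : ℚ[X]) (x : ℝ), ev (p : PowerSeries ℚ) x =
    (p.map (algebraMap ℚ ℝ)).eval x) (hEm : EvaMul) {r : ℕ}
    (H : Matrix (Fin r) (Fin r) (PowerSeries ℚ)) (J : Matrix (Fin r) (Fin r) ℚ[X])
    (J₀ : Matrix (Fin r) (Fin r) ℚ) (z : ℝ) (hS : ∀ i j, SAt (H i j) z)
    (h : Hᵀ * J.map (fun p => (p : PowerSeries ℚ)) * H = J₀.map (fun x => PowerSeries.C x)) :
    (H.map (fun f => ev f z))ᵀ * J.map (fun p => (p.map (algebraMap ℚ ℝ)).eval z) *
      H.map (fun f => ev f z) = J₀.map (fun x => (x : ℝ)) := by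
  have hT : ∀ i j, SAt (Hᵀ i j) z := fun i j => hS j i
  have hJ : ∀ i j, SAt (J.map (fun p => (p : PowerSeries ℚ)) i j) z :=
    fun i j => sat_poly _ _
  obtain ⟨h2, h3⟩ := ev_matMul hEm Hᵀ (J.map (fun p => (p : PowerSeries ℚ))) z hT hJ
  obtain ⟨-, h4⟩ := ev_matMul hEm _ H z h2 hS
  have h5 : (J.map (fun p => (p : PowerSeries ℚ))).map (fun f => ev f z) =
      J.map (fun p => (p.map (algebraMap ℚ ℝ)).eval z) := by
    ext i j
    exact hEp _ _
  have h6 : (J₀.map (fun x => (PowerSeries.C x : PowerSeries ℚ))).map (fun f => ev f z) =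
      J₀.map (fun x => (x : ℝ)) := by
    ext i j
    change ev (PowerSeries.C (J₀ i j)) z = ((J₀ i j : ℚ) : ℝ)
    rw [← Polynomial.coe_C, hEp, Polynomial.map_C, Polynomial.eval_C]
    rfl
  rw [← h6, ← h, h4, h3, h5]
  rfl

attribute [local irreducible] Hyp Jm A0 Ak cf pp bet

/-- ANA -/
theorem ana (hE : EvaStmt) (hH : HypStmt) (hg : HgrStmt) (hP : PaiStmt) : AnaStmt := by
  intro D w hw
  obtain ⟨-, hEp, hEm, hEa⟩ := hE
  have hlam : (0 : ℝ) < (D.lam : ℝ) := by exact_mod_cast D.lam_pos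
  have hw0 : 0 < w := hlam.trans hw
  have hz : (D.lam : ℝ) * |w⁻¹| < 1 := by
    rw [abs_of_pos (inv_pos.2 hw0), ← div_eq_mul_inv, div_lt_one hw0]
    exact hw
  obtain ⟨Cg, hC⟩ := gro_hyp hg D
  have hS : ∀ a l, SAt (Hyp D a l) w⁻¹ := fun a l => sat_of_gro hlam.le (hC a l) hz
  set He : Matrix (Fin D.r) (Fin D.r) ℝ := (Hyp D).map (fun f => ev f w⁻¹) with hHe
  -- the pairing
  have hpair : (W D w)ᵀ * (Jm D).map (fun p => (p.map (algebraMap ℚ ℝ)).eval w⁻¹) * W D w =
      (J0 D.r).map (fun x => (x : ℝ)) := by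
    have h1 := pair_ev hEp hEm (Hyp D) (Jm D) (J0 D.r) w⁻¹ hS (hP D).2
    rw [← hHe] at h1
    have h8 : W D w = He * en D.r (-Real.log w) := W_eq D w
    rw [h8, Matrix.transpose_mul]
    calc (en D.r (-Real.log w))ᵀ * Heᵀ *
          (Jm D).map (fun p => (p.map (algebraMap ℚ ℝ)).eval w⁻¹) *
          (He * en D.r (-Real.log w))
        = (en D.r (-Real.log w))ᵀ * (Heᵀ *
          (Jm D).map (fun p => (p.map (algebraMap ℚ ℝ)).eval w⁻¹) * He) *
            en D.r (-Real.log w) := by simp only [Matrix.mul_assoc]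
      _ = _ := by rw [h1, en_J0]
  refine ⟨?_, ?_, hpair, ?_⟩
  · -- analyticity
    intro i j
    have h1 : (fun x => W D x i j) = fun x => ∑ l, ev (Hyp D i l) x⁻¹ *
        en D.r (-Real.log x) l j := by
      funext x
      rw [W_eq, Matrix.mul_apply]
      rfl
    rw [h1]
    refine Finset.analyticAt_fun_sum _ fun l _ => ?_
    refine AnalyticAt.mul ?_ ?_
    · obtain ⟨ρ, hρ1, hρ2⟩ : ∃ ρ, w⁻¹ < ρ ∧ ρ < 1 / (D.lam : ℝ) := by
        refine exists_between ?_
        rw [inv_eq_one_div]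
        exact one_div_lt_one_div_of_lt hlam hw
      have hρ0 : 0 < ρ := (inv_pos.2 hw0).trans hρ1
      have hρ3 : (D.lam : ℝ) * |ρ| < 1 := by
        rw [abs_of_pos hρ0]
        rw [lt_div_iff₀ hlam] at hρ2
        linarith [mul_comm (D.lam : ℝ) ρ]
      have h2 : AnalyticAt ℝ (ev (Hyp D i l)) w⁻¹ := hEa _ ρ hρ0.ne'
        (sat_of_gro hlam.le (hC i l) hρ3) _ (by
          rw [abs_of_pos (inv_pos.2 hw0), abs_of_pos hρ0]; exact hρ1)
      exact h2.fun_comp (analyticAt_inv hw0.ne')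
    · by_cases hlj : l ≤ j
      · simp only [en, if_pos hlj, Rat.smul_def]
        refine analyticAt_const.mul ?_
        exact ((_root_.analyticAt_log hw0).fun_neg).fun_pow _
      · simp only [en, if_neg hlj]
        exact analyticAt_const
  · -- invertibility
    have h1 := congrArg Matrix.det hpair
    rw [Matrix.det_mul, Matrix.det_mul] at h1
    have h2 : IsUnit ((J0 D.r).map (fun x => (x : ℝ))).det := by
      have h3 := congrArg Matrix.det (J0_sq D)
      rw [Matrix.det_mul] at h3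
      have h4 : IsUnit (-1 : Matrix (Fin D.r) (Fin D.r) ℝ).det := by
        rw [← Matrix.isUnit_iff_isUnit_det]
        exact isUnit_one.neg
      rw [← h3] at h4
      exact isUnit_of_mul_isUnit_left h4
    rw [← h1] at h2
    exact isUnit_of_mul_isUnit_right h2
  · -- the derivative
    intro i j
    have hode := (hH D).2
    set N : Matrix (Fin D.r) (Fin D.r) ℝ := (Nsh D.r).map (fun x => (x : ℝ)) with hN
    set A : Matrix (Fin D.r) (Fin D.r) ℝ :=
      (A0 D).map (fun p => (p.map (algebraMap ℚ ℝ)).eval w⁻¹) with hA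
    set He' : Matrix (Fin D.r) (Fin D.r) ℝ := (Hyp D).map (fun f => ev (dv f) w⁻¹) with hHe'
    -- the evaluated equation
    have hS' : ∀ a l, SAt (dv (Hyp D a l)) w⁻¹ := by
      intro a l
      obtain ⟨C', hC'⟩ := gro_dv hlam.le (hC a l)
      exact sat_of_gro hlam.le hC' hz
    have hev : ∀ a l, ((1 - (D.lam : ℝ) * w⁻¹) * w⁻¹) * He' a l =
        (A * He) a l - (1 - (D.lam : ℝ) * w⁻¹) * (He * N) a l := by
      intro a l
      have h1 := congrFun (congrFun hode a) l
      have h2 : (((1 - C D.lam * X : ℚ[X]) : PowerSeries ℚ) * PowerSeries.X) * dv (Hyp D a l) +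
          ((1 - C D.lam * X : ℚ[X]) : PowerSeries ℚ) *
            (Hyp D * (Nsh D.r).map (fun x => (x : PowerSeries ℚ))) a l =
          ((A0 D).map (fun p => (p : PowerSeries ℚ)) * Hyp D) a l := by
        have h3 : (((1 - C D.lam * X : ℚ[X]) : PowerSeries ℚ) * PowerSeries.X) *
            dv (Hyp D a l) = ((A0 D).map (fun p => (p : PowerSeries ℚ)) * Hyp D) a l -
          ((1 - C D.lam * X : ℚ[X]) : PowerSeries ℚ) *
            (Hyp D * (Nsh D.r).map (fun x => (x : PowerSeries ℚ))) a l := h1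
        rw [h3]
        ring
      have hq : (((1 - C D.lam * X : ℚ[X]) : PowerSeries ℚ) * PowerSeries.X) =
          (((1 - C D.lam * X) * X : ℚ[X]) : PowerSeries ℚ) := by
        rw [Polynomial.coe_mul, Polynomial.coe_X]
      rw [hq] at h2
      have hNs : ∀ i j, SAt ((Nsh D.r).map (fun x => (x : PowerSeries ℚ)) i j) w⁻¹ := by
        intro i j
        change SAt ((Nsh D.r i j : ℤ) : PowerSeries ℚ) w⁻¹
        have h4 : ((Nsh D.r i j : ℤ) : PowerSeries ℚ) = (((Nsh D.r i j : ℤ) : ℚ[X]) :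
            PowerSeries ℚ) := by
          rw [← map_intCast (Polynomial.coeToPowerSeries.ringHom (R := ℚ))]
          rfl
        rw [h4]
        exact sat_poly _ _
      have hNe : ((Nsh D.r).map (fun x => (x : PowerSeries ℚ))).map (fun f => ev f w⁻¹) = N := by
        ext i j
        change ev ((Nsh D.r i j : ℤ) : PowerSeries ℚ) w⁻¹ = ((Nsh D.r i j : ℤ) : ℝ)
        have h4 : ((Nsh D.r i j : ℤ) : PowerSeries ℚ) = (((Nsh D.r i j : ℤ) : ℚ[X]) :
            PowerSeries ℚ) := by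
          rw [← map_intCast (Polynomial.coeToPowerSeries.ringHom (R := ℚ))]
          rfl
        rw [h4, hEp]
        simp
      have hAs : ∀ i j, SAt ((A0 D).map (fun p => (p : PowerSeries ℚ)) i j) w⁻¹ :=
        fun i j => sat_poly _ _
      have hAe : ((A0 D).map (fun p => (p : PowerSeries ℚ))).map (fun f => ev f w⁻¹) = A := by
        ext i j
        exact hEp _ _
      obtain ⟨s1, e1⟩ := ev_matMul hEm _ _ w⁻¹ hS hNs
      obtain ⟨s2, e2⟩ := ev_matMul hEm _ _ w⁻¹ hAs hS
      rw [hNe] at e1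
      rw [hAe] at e2
      obtain ⟨s3, -, -, e3⟩ := hEm _ _ w⁻¹ (sat_poly ((1 - C D.lam * X) * X) w⁻¹) (hS' a l)
      obtain ⟨s4, -, -, e4⟩ := hEm _ _ w⁻¹ (sat_poly (1 - C D.lam * X) w⁻¹) (s1 a l)
      obtain ⟨-, -, e5, -⟩ := hEm _ _ w⁻¹ s3 s4
      have h5 : ev _ w⁻¹ = ev _ w⁻¹ := congrArg (fun f => ev f w⁻¹) h2
      rw [e5, e3, e4, hEp, hEp] at h5
      have e1' : ev ((Hyp D * (Nsh D.r).map (fun x => (x : PowerSeries ℚ))) a l) w⁻¹ =
        (He * N) a l := congrFun (congrFun e1 a) l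
      have e2' : ev (((A0 D).map (fun p => (p : PowerSeries ℚ)) * Hyp D) a l) w⁻¹ =
        (A * He) a l := congrFun (congrFun e2 a) l
      rw [e1', e2'] at h5
      simp only [Polynomial.map_mul, Polynomial.map_sub, Polynomial.map_one, Polynomial.map_C,
        Polynomial.map_X, Polynomial.eval_mul, Polynomial.eval_sub, Polynomial.eval_one,
        Polynomial.eval_C, Polynomial.eval_X, eq_ratCast] at h5
      have h6 : He' a l = ev (dv (Hyp D a l)) w⁻¹ := rfl
      rw [h6]
      linarith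
    -- the derivative of the product
    have h1 : (fun x => W D x i j) = fun x => ∑ l, ev (Hyp D i l) x⁻¹ *
        en D.r (-Real.log x) l j := by
      funext x
      rw [W_eq, Matrix.mul_apply]
      rfl
    rw [h1]
    have h2 : HasDerivAt (fun x => ∑ l, ev (Hyp D i l) x⁻¹ * en D.r (-Real.log x) l j)
        (∑ l, ((ev (dv (Hyp D i l)) w⁻¹ * (-(w ^ 2)⁻¹)) * en D.r (-Real.log w) l j +
          ev (Hyp D i l) w⁻¹ * ((N * en D.r (-Real.log w)) l j * (-w⁻¹)))) w := by
      refine HasDerivAt.fun_sum fun l _ => ?_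
      refine HasDerivAt.mul ?_ ?_
      · exact (hasDerivAt_ev hlam (hC i l) hz).comp w (hasDerivAt_inv hw0.ne')
      · exact (hasDerivAt_en D.r (-Real.log w) l j).comp w (Real.hasDerivAt_log hw0.ne').neg
    refine h2.congr_deriv ?_
    have h3 : ∑ l, ((ev (dv (Hyp D i l)) w⁻¹ * (-(w ^ 2)⁻¹)) * en D.r (-Real.log w) l j +
          ev (Hyp D i l) w⁻¹ * ((N * en D.r (-Real.log w)) l j * (-w⁻¹))) =
        -(w⁻¹) * (∑ l, (w⁻¹ * He' i l + (He * N) i l) * en D.r (-Real.log w) l j) := by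
      have h4 : ∑ l, ev (Hyp D i l) w⁻¹ * ((N * en D.r (-Real.log w)) l j * (-w⁻¹)) =
          -(w⁻¹) * ∑ l, (He * N) i l * en D.r (-Real.log w) l j := by
        have h5 : ∑ l, (He * N) i l * en D.r (-Real.log w) l j =
            ∑ l, He i l * (N * en D.r (-Real.log w)) l j := by
          have h6 := congrFun (congrFun (Matrix.mul_assoc He N (en D.r (-Real.log w))) i) j
          rw [Matrix.mul_apply, Matrix.mul_apply] at h6
          exact h6
        rw [h5, Finset.mul_sum]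
        refine Finset.sum_congr rfl fun l _ => ?_
        change ev (Hyp D i l) w⁻¹ * _ = -(w⁻¹) * (ev (Hyp D i l) w⁻¹ * _)
        ring
      rw [Finset.sum_add_distrib, h4]
      have h7 : ∑ l, (ev (dv (Hyp D i l)) w⁻¹ * (-(w ^ 2)⁻¹)) * en D.r (-Real.log w) l j =
          -(w⁻¹) * ∑ l, w⁻¹ * He' i l * en D.r (-Real.log w) l j := by
        rw [Finset.mul_sum]
        refine Finset.sum_congr rfl fun l _ => ?_
        change _ = -(w⁻¹) * (w⁻¹ * ev (dv (Hyp D i l)) w⁻¹ * _)
        rw [sq, mul_inv]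
        ring
      rw [h7, ← mul_add, ← Finset.sum_add_distrib]
      congr 1
      refine Finset.sum_congr rfl fun l _ => ?_
      ring
    rw [h3]
    have hwl : w - D.lam ≠ 0 := by
      have : (0 : ℝ) < w - D.lam := by linarith
      exact this.ne'
    have h8 : ∀ l, w⁻¹ * He' i l + (He * N) i l = (w * (w - D.lam)⁻¹) * (A * He) i l := by
      intro l
      have h9 := hev i l
      have h10 : (1 - (D.lam : ℝ) * w⁻¹) = w⁻¹ * (w - D.lam) := by
        rw [mul_sub, inv_mul_cancel₀ hw0.ne']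
        ring
      rw [h10] at h9
      have h11 : w⁻¹ * (w - D.lam) * (w⁻¹ * He' i l + (He * N) i l) = (A * He) i l := by
        linarith
      rw [← h11]
      field_simp
    have h12 : ∑ l, (w⁻¹ * He' i l + (He * N) i l) * en D.r (-Real.log w) l j =
        (w * (w - D.lam)⁻¹) * (A * W D w) i j := by
      have h13 : (A * W D w) i j = ∑ l, (A * He) i l * en D.r (-Real.log w) l j := by
        rw [W_eq, ← hHe, ← Matrix.mul_assoc, Matrix.mul_apply]
      rw [h13, Finset.mul_sum]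
      refine Finset.sum_congr rfl fun l _ => ?_
      rw [h8]
      ring
    rw [h12]
    have hw1 : w⁻¹ * w = 1 := inv_mul_cancel₀ hw0.ne'
    calc -(w⁻¹) * (w * (w - D.lam)⁻¹ * (A * W D w) i j)
        = -(w⁻¹ * w) * ((w - D.lam)⁻¹ * (A * W D w) i j) := by ring
      _ = _ := by rw [hw1]; ring

end Pool.Agent.Helper51_MT
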